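import Pool.Agent.H431.PN.Form
import Pool.Agent.H431.OC.HtMaps

/-!
# The heights of the values of forms
-/

set_option autoImplicit false

namespace Pool.Agent.H431.CV

open NumberField IsDedekindDomain Height Pool.Agent.Q290.NF Height.AdmissibleAbsValues
open Pool.Agent.H431.OC Pool.Agent.H431.MT
open Pool.Agent.H431.PN

/-- the height of the value of a form -/
theorem form_ht0 (K : Type) [Field K] [NumberField K] {n q : ℕ} (F : MvPolynomial (Fin (n + 1)) K)
    (hF : F.IsHomogeneous q) :
    ∃ (D0 : ℤ) (C : ℝ), D0 ≠ 0 ∧ 0 ≤ C ∧ ∀ (M : Type) [Field M] [NumberField M] [Algebra K M] (P : Fin (n + 1) → M)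
      , MvPolynomial.aeval P F ≠ 0 →
      logHeight (fun o : Option (Fin (n + 1)) => o.elim ((D0 : M) * MvPolynomial.aeval P F)
        (fun k => P k ^ q)) ≤ q * logHeight P + Module.finrank ℚ M * C := by
  classical
  obtain ⟨D, hD0, hD⟩ := exists_integral_multiples ℤ ℚ (L := K)
    (F.support.image fun s => F.coeff s)
  obtain ⟨κ, hκ⟩ : ∃ κ : ℝ, κ = 1 + ∑ φ : K →+* ℂ, ∑ s ∈ F.support, ‖φ (D * F.coeff s)‖ :=
    ⟨_, rfl⟩
  have hκ1 : 1 ≤ κ := by
    rw [hκ]
    have : 0 ≤ ∑ φ : K →+* ℂ, ∑ s ∈ F.support, ‖φ (D * F.coeff s)‖ :=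
      Finset.sum_nonneg fun φ _ => Finset.sum_nonneg fun s _ => norm_nonneg _
    linarith
  refine ⟨D, Real.log κ, hD0, Real.log_nonneg hκ1, fun M _ _ _ P hP => ?_⟩
  obtain ⟨f, hf⟩ : ∃ f : MvPolynomial (Fin (n + 1)) M,
    f = MvPolynomial.map (algebraMap K M) (MvPolynomial.C (D : K) * F) := ⟨_, rfl⟩
  have hfh : f.IsHomogeneous q := by
    rw [hf]
    refine MvPolynomial.IsHomogeneous.map ?_ _
    have := (MvPolynomial.isHomogeneous_C (Fin (n + 1)) (D : K)).mul hF
    rwa [zero_add] at this
  have hfc : ∀ s, f.coeff s = algebraMap K M (D * F.coeff s) := by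
    intro s
    rw [hf, MvPolynomial.coeff_map, MvPolynomial.coeff_C_mul]
  have hfe : f.eval P = (D : M) * MvPolynomial.aeval P F := by
    rw [hf, MvPolynomial.eval_map, MvPolynomial.eval₂_mul, MvPolynomial.eval₂_C, map_intCast,
      MvPolynomial.aeval_def]
  have hfs : ∀ s, f.coeff s ≠ 0 → s ∈ F.support := by
    intro s hs
    rw [MvPolynomial.mem_support_iff]
    intro h
    apply hs
    rw [hfc, h, mul_zero, map_zero]
  have hDM : (D : M) ≠ 0 := Int.cast_ne_zero.2 hD0
  obtain ⟨y, hy⟩ : ∃ y : Option (Fin (n + 1)) → M, y = fun o => o.elim (f.eval P)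
    (fun k => P k ^ q) := ⟨_, rfl⟩
  have hy0 : y none = (D : M) * MvPolynomial.aeval P F := by
    rw [hy]
    exact hfe
  have hys : ∀ k, y (some k) = P k ^ q := by
    intro k
    rw [hy]
    rfl
  have hPq : (P ^ q : Fin (n + 1) → M) ≠ 0 := by
    intro h
    have hq : q ≠ 0 := by
      rintro rfl
      have := congrFun h 0
      rw [Pi.pow_apply, pow_zero, Pi.zero_apply] at this
      exact one_ne_zero this
    have hP0 : P = 0 := by
      funext k
      have := congrFun h k
      rw [Pi.pow_apply, Pi.zero_apply] at this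
      exact pow_eq_zero_iff hq |>.1 this
    apply hP
    rw [hP0, MvPolynomial.aeval_zero, MvPolynomial.constantCoeff_eq, hF.coeff_eq_zero, map_zero]
    simpa using hq.symm
  have h2 : mulHeight y ≤ κ ^ totalWeight M * mulHeight (P ^ q : Fin (n + 1) → M) := by
    refine cmp y (P ^ q) (by
      intro h
      have := congrFun h none
      rw [hy0, Pi.zero_apply] at this
      exact mul_ne_zero hDM hP this) hPq κ (by linarith) ?_ ?_
    · intro v hv o
      obtain ⟨ψ, hψ⟩ : IsInfinitePlace v := mem_multisetInfinitePlace.1 hv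
      have hsup : 0 ≤ ⨆ j, v ((P ^ q : Fin (n + 1) → M) j) := Real.iSup_nonneg fun i => v.nonneg _
      rcases o with _ | k
      · rw [hy0, ← hfe]
        refine (AbsoluteValue.eval_mvPolynomial_le v hfh P).trans ?_
        refine mul_le_mul ?_ (sup_pow v P q)
          (pow_nonneg (Real.iSup_nonneg fun i => v.nonneg _) q) (by linarith)
        have e1 : (AddMonoidAlgebra.coeff f).sum (fun _ c => v c) =
            ∑ s ∈ f.support, v (f.coeff s) := rfl
        have e2 : f.support ⊆ F.support := fun s hs =>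
          hfs s (MvPolynomial.mem_support_iff.1 hs)
        have e3 : ∑ s ∈ f.support, v (f.coeff s) ≤ ∑ s ∈ F.support, v (f.coeff s) :=
          Finset.sum_le_sum_of_subset_of_nonneg e2 fun s _ _ => v.nonneg _
        have e4 : ∑ s ∈ F.support, v (f.coeff s) =
            ∑ s ∈ F.support, ‖(ψ.comp (algebraMap K M)) (D * F.coeff s)‖ := by
          refine Finset.sum_congr rfl fun s _ => ?_
          rw [← hψ, hfc]
          rfl
        have e5 : ∑ s ∈ F.support, ‖(ψ.comp (algebraMap K M)) (D * F.coeff s)‖ ≤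
            ∑ φ : K →+* ℂ, ∑ s ∈ F.support, ‖φ (D * F.coeff s)‖ :=
          Finset.single_le_sum (f := fun φ : K →+* ℂ => ∑ s ∈ F.support, ‖φ (D * F.coeff s)‖)
            (fun φ _ => Finset.sum_nonneg fun s _ => norm_nonneg _)
            (Finset.mem_univ (ψ.comp (algebraMap K M)))
        rw [e1, hκ]
        linarith
      · rw [hys]
        have h3 : v (P k ^ q) ≤ ⨆ j, v ((P ^ q : Fin (n + 1) → M) j) :=
          Finite.le_ciSup (fun j => v ((P ^ q : Fin (n + 1) → M) j)) k
        nlinarith
    · intro v hv o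
      rcases o with _ | k
      · rw [hy0, ← hfe]
        refine (IsNonarchimedean.eval_mvPolynomial_le (isNonarchimedean v hv) hfh P).trans ?_
        have h3 := sup_pow v P q
        have h4 : (⨆ s : f.support, v (f.coeff s)) ≤ 1 := by
          refine Real.iSup_le (fun s => non_int v hv ?_) zero_le_one
          have e1 : (s : Fin (n + 1) →₀ ℕ) ∈ F.support :=
            hfs s (MvPolynomial.mem_support_iff.1 s.2)
          have e2 := hD _ (Finset.mem_image_of_mem (fun s => F.coeff s) e1)
          rw [hfc, ← zsmul_eq_mul]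
          exact e2.algebraMap
        have h5 : 0 ≤ (⨆ i, v (P i)) ^ q := pow_nonneg (Real.iSup_nonneg fun i => v.nonneg _) q
        refine (mul_le_of_le_one_left h5 h4).trans h3
      · rw [hys]
        exact Finite.le_ciSup (fun j => v ((P ^ q : Fin (n + 1) → M) j)) k
  have h3 := Real.log_le_log (mulHeight_pos y) h2
  rw [Real.log_mul (by positivity) (mulHeight_pos _).ne', Real.log_pow, ← logHeight_eq_log_mulHeight,
    ← logHeight_eq_log_mulHeight, logHeight_pow, NumberField.totalWeight_eq_finrank] at h3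
  have e9 : (fun o : Option (Fin (n + 1)) => o.elim ((D : M) * MvPolynomial.aeval P F)
        (fun k => P k ^ q)) = y := by
    funext o
    rcases o with _ | k
    · exact hy0.symm
    · exact (hys k).symm
  rw [e9]
  linarith

/-- the height of the value of a form at a point with a coordinate `1` -/
theorem form_ht (K : Type) [Field K] [NumberField K] {n q : ℕ} (F : MvPolynomial (Fin (n + 1)) K)
    (hF : F.IsHomogeneous q) :
    ∃ C : ℝ, 0 ≤ C ∧ ∀ (M : Type) [Field M] [NumberField M] [Algebra K M] (P : Fin (n + 1) → M)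
      (k0 : Fin (n + 1)), P k0 = 1 → MvPolynomial.aeval P F ≠ 0 →
      logHeight₁ (MvPolynomial.aeval P F) ≤ q * logHeight P + Module.finrank ℚ M * C := by
  classical
  obtain ⟨D0, C, hD0, hC, H⟩ := form_ht0 K F hF
  have key : ∀ k0 : Fin (n + 1), ∃ C' : ℝ, 0 ≤ C' ∧ ∀ (M : Type) [Field M] [NumberField M]
      [Algebra K M] (x : Option (Fin (n + 1)) → M),
      logHeight (fun j : Fin 2 => ∑ i, algebraMap K M
        (if j = 0 then (if i = none then (D0 : K)⁻¹ else 0) else
          (if i = some k0 then 1 else 0)) * x i) ≤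
        logHeight x + Module.finrank ℚ M * C' := fun k0 =>
    lin_le (k := K) (ι := Option (Fin (n + 1))) (ι' := Fin 2) (fun p =>
      if p.1 = 0 then (if p.2 = none then (D0 : K)⁻¹ else 0) else
        (if p.2 = some k0 then 1 else 0))
  choose Cf hCf0 hCf using key
  refine ⟨C + ∑ k0, Cf k0, by
    have := Finset.sum_nonneg fun k0 (_ : k0 ∈ Finset.univ) => hCf0 k0
    linarith, fun M _ _ _ P k0 hk0 hP => ?_⟩
  have h1 := H M P hP
  have h2 := hCf k0 M (fun o : Option (Fin (n + 1)) => o.elim ((D0 : M) *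
    MvPolynomial.aeval P F) (fun k => P k ^ q))
  have e1 : (fun j : Fin 2 => ∑ i, algebraMap K M
        (if j = 0 then (if i = none then (D0 : K)⁻¹ else 0) else
          (if i = some k0 then 1 else 0)) * (i.elim ((D0 : M) *
    MvPolynomial.aeval P F) (fun k => P k ^ q) : M)) = ![MvPolynomial.aeval P F, 1] := by
    have hD : (D0 : M) ≠ 0 := Int.cast_ne_zero.2 hD0
    funext j
    fin_cases j
    · simp only [Fin.zero_eta, if_true, Matrix.cons_val_zero]
      rw [Finset.sum_eq_single none]
      · rw [if_pos rfl, map_inv₀, map_intCast]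
        show (D0 : M)⁻¹ * ((D0 : M) * MvPolynomial.aeval P F) = _
        rw [inv_mul_cancel_left₀ hD]
      · intro i _ hi
        rw [if_neg hi, map_zero, zero_mul]
      · intro h
        exact absurd (Finset.mem_univ _) h
    · simp only [Fin.mk_one, one_ne_zero, if_false, Matrix.cons_val_one, Matrix.cons_val_fin_one]
      rw [Finset.sum_eq_single (some k0)]
      · rw [if_pos rfl, map_one, one_mul]
        show P k0 ^ q = 1
        rw [hk0, one_pow]
      · intro i _ hi
        rw [if_neg hi, map_zero, zero_mul]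
      · intro h
        exact absurd (Finset.mem_univ _) h
  rw [e1, ← logHeight₁_eq_logHeight] at h2
  have h3 : Cf k0 ≤ ∑ k0, Cf k0 :=
    Finset.single_le_sum (f := Cf) (fun k _ => hCf0 k) (Finset.mem_univ k0)
  have hM : (0 : ℝ) ≤ Module.finrank ℚ M := Nat.cast_nonneg _
  have h4 := mul_le_mul_of_nonneg_left h3 hM
  rw [mul_add]
  linarith

end Pool.Agent.H431.CV
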