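import Pool.Agent.H431.CV.Step2
import Pool.Agent.H431.PN.Prox
import Pool.Agent.H431.PN.Ht
import Pool.Agent.H431.OC.Log4

/-!
# Coverings of projective space and local heights
-/

set_option autoImplicit false

namespace Pool.Agent.H431.CV

open NumberField IsDedekindDomain Height Pool.Agent.Q290.NF IntermediateField
open Pool.Agent.H431.OC Pool.Agent.H431.MT Height.AdmissibleAbsValues

/-- orders of roots of monic polynomials -/
theorem root_ord {E : Type} [Field E] [NumberField E] (w : HeightOneSpectrum (𝓞 E)) {N : ℕ}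
    (a : ℕ → E) (z : E) (hz : z ^ N + ∑ i ∈ Finset.range N, a i * z ^ i = 0)
    (ρ : ℤ) (hρ : 0 ≤ ρ) (ha : ∀ i < N, -ρ ≤ ord w (a i)) : -ρ ≤ ord w z := by
  by_contra h
  rw [not_le] at h
  have hz0 : z ≠ 0 := by
    rintro rfl
    rw [ord_zero] at h
    omega
  have h1 : w.valuation E (∑ i ∈ Finset.range N, a i * z ^ i) < w.valuation E (z ^ N) := by
    apply Valuation.map_sum_lt _ (val_ne w (pow_ne_zero N hz0))
    intro i hi
    rw [Finset.mem_range] at hi
    by_cases hai : a i = 0
    · rw [hai, zero_mul, map_zero]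
      exact zero_lt_iff.2 (val_ne w (pow_ne_zero N hz0))
    · rw [← ord_lt_iff w (pow_ne_zero N hz0) (mul_ne_zero hai (pow_ne_zero i hz0)),
        ord_mul w hai (pow_ne_zero i hz0), ord_pow, ord_pow]
      have h2 := ha i hi
      have h4 : (i : ℤ) + 1 ≤ N := by exact_mod_cast hi
      have h5 : ord w z ≤ 0 := by omega
      have h3 : ((N : ℤ) - (i + 1)) * ord w z ≤ 0 :=
        mul_nonpos_of_nonneg_of_nonpos (by omega) h5
      have h6 : ((N : ℤ) - (i + 1)) * ord w z = N * ord w z - i * ord w z - ord w z := by ring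
      omega
  have h2 : z ^ N = -(∑ i ∈ Finset.range N, a i * z ^ i) := eq_neg_of_add_eq_zero_left hz
  rw [h2, Valuation.map_neg] at h1
  exact lt_irrefl _ h1

/-- a common denominator -/
theorem exists_den (K : Type) [Field K] [NumberField K] (T : Finset K) :
    ∃ N : ℕ, N ≠ 0 ∧ ∀ (E : Type) [Field E] [NumberField E] [Algebra K E]
      (w : HeightOneSpectrum (𝓞 E)), ∀ a ∈ T, -ord w (N : E) ≤ ord w (algebraMap K E a) := by
  classical
  induction T using Finset.induction_on with
  | empty => exact ⟨1, one_ne_zero, fun E _ _ _ w a ha => by simp at ha⟩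
  | insert b T _ ih =>
    obtain ⟨N, hN, H⟩ := ih
    have hb : IsAlgebraic ℤ b := by
      have h1 : IsAlgebraic ℚ b := Algebra.IsAlgebraic.isAlgebraic b
      exact (IsFractionRing.isAlgebraic_iff ℤ ℚ K).2 h1
    obtain ⟨y, hy0, hy⟩ := hb.exists_integral_multiple
    refine ⟨y.natAbs * N, mul_ne_zero (by simpa using hy0) hN, ?_⟩
    intro E _ _ _ w a ha
    have hNE : (N : E) ≠ 0 := Nat.cast_ne_zero.2 hN
    have hyE : (y.natAbs : E) ≠ 0 := Nat.cast_ne_zero.2 (by simpa using hy0)
    have h0 := nat_nonneg w N (K := E)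
    have h0' := nat_nonneg w y.natAbs (K := E)
    rw [Nat.cast_mul, ord_mul w hyE hNE]
    rw [Finset.mem_insert] at ha
    rcases ha with rfl | ha
    · by_cases ha0 : a = 0
      · rw [ha0, map_zero, ord_zero]
        omega
      have h1 : IsIntegral ℤ (algebraMap K E (y • a)) := hy.algebraMap
      have h2 : 0 ≤ ord w (algebraMap K E (y • a)) := by
        rw [ord_nonneg_iff]
        exact w.valuation_le_one (K := E) (⟨_, h1⟩ : 𝓞 E)
      have e1 : algebraMap K E (y • a) = (y : E) * algebraMap K E a := by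
        rw [zsmul_eq_mul, map_mul, map_intCast]
      have hy1 : (y : E) ≠ 0 := Int.cast_ne_zero.2 hy0
      rw [e1, ord_mul w hy1 ((_root_.map_ne_zero _).2 ha0)] at h2
      have e2 : ord w (y : E) = ord w (y.natAbs : E) := by
        rcases Int.natAbs_eq y with h | h
        · conv_lhs => rw [h]
          rw [Int.cast_natCast]
        · conv_lhs => rw [h]
          rw [Int.cast_neg, Int.cast_natCast, ord_neg]
      omega
    · have h1 := H E w a ha
      omega

/-- the additional coordinate `1 = ∑ P_j` -/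
theorem ht_snoc {E : Type} [Field E] [NumberField E] {n : ℕ} (P : Fin (n + 1) → E)
    (hs : ∑ j, P j = 1) (z : E) :
    logHeight (Fin.snoc (Fin.snoc P 1 : Fin (n + 2) → E) z : Fin (n + 3) → E) ≤
      logHeight (Fin.snoc P z : Fin (n + 2) → E) + Module.finrank ℚ E * Real.log (n + 1) := by
  obtain ⟨u, hu⟩ : ∃ u : Fin (n + 3) → E, u = Fin.snoc (Fin.snoc P 1 : Fin (n + 2) → E) z :=
    ⟨_, rfl⟩
  obtain ⟨w, hw⟩ : ∃ w : Fin (n + 2) → E, w = Fin.snoc P z := ⟨_, rfl⟩
  have e1 : ∀ j : Fin (n + 1), w j.castSucc = P j := fun j => by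
    rw [hw]
    exact Fin.snoc_castSucc (α := fun _ => E) z P j
  have e2 : w (Fin.last (n + 1)) = z := by
    rw [hw]
    exact Fin.snoc_last (α := fun _ => E) z P
  have hw0 : w ≠ 0 := by
    intro h
    have h1 : ∑ j, P j = 0 := Finset.sum_eq_zero fun j _ => by
      rw [← e1 j, h]
      rfl
    rw [h1] at hs
    exact zero_ne_one hs
  have hu0 : u ≠ 0 := by
    intro h
    have h1 : u (Fin.castSucc (Fin.last (n + 1))) = 1 := by
      rw [hu, Fin.snoc_castSucc (α := fun _ => E), Fin.snoc_last (α := fun _ => E)]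
    rw [h] at h1
    exact zero_ne_one h1
  have hle : ∀ (v : AbsoluteValue E ℝ) (j : Fin (n + 2)), v (w j) ≤ ⨆ j, v (w j) := fun v j =>
    Finite.le_ciSup (fun j => v (w j)) j
  have hpos : ∀ v : AbsoluteValue E ℝ, 0 ≤ ⨆ j, v (w j) := fun v =>
    Real.iSup_nonneg fun i => v.nonneg _
  have hcase : ∀ (v : AbsoluteValue E ℝ) (κ : ℝ), 1 ≤ κ → v (∑ j, P j) ≤ κ * ⨆ j, v (w j) →
      ∀ i, v (u i) ≤ κ * ⨆ j, v (w j) := by
    intro v κ hκ hsum i
    have h0 : (⨆ j, v (w j)) ≤ κ * ⨆ j, v (w j) := le_mul_of_one_le_left (hpos v) hκ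
    refine Fin.lastCases ?_ (fun i => ?_) i
    · rw [hu, Fin.snoc_last (α := fun _ => E), ← e2]
      exact (hle v _).trans h0
    · rw [hu, Fin.snoc_castSucc (α := fun _ => E)]
      refine Fin.lastCases ?_ (fun i => ?_) i
      · rw [Fin.snoc_last (α := fun _ => E), ← hs]
        exact hsum
      · rw [Fin.snoc_castSucc (α := fun _ => E), ← e1 i]
        exact (hle v _).trans h0
  have hn1 : (1 : ℝ) ≤ n + 1 := by
    have : (0 : ℝ) ≤ n := Nat.cast_nonneg _
    linarith
  have h := Pool.Agent.H431.PN.cmp u w hu0 hw0 (n + 1) (by linarith) (fun v _ => hcase v _ hn1 (by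
      refine (v.sum_le _ _).trans ?_
      refine (Finset.sum_le_sum fun j _ => (e1 j ▸ hle v j.castSucc : v (P j) ≤ _)).trans
        (le_of_eq ?_)
      rw [Finset.sum_const, Finset.card_univ, Fintype.card_fin, nsmul_eq_mul]
      push_cast
      ring)) (fun v hv i => by
      have hna : IsNonarchimedean v := isNonarchimedean v hv
      have h1 := hcase v 1 le_rfl (by
        rw [one_mul]
        refine (IsNonarchimedean.apply_sum_univ_le (l := P) hna).trans (ciSup_le fun j => ?_)
        rw [← e1 j]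
        exact hle v _) i
      rwa [one_mul] at h1)
  rw [← hu, ← hw]
  have h1 := Real.log_le_log (mulHeight_pos u) h
  rw [Real.log_mul (pow_ne_zero _ (by positivity)) (mulHeight_pos w).ne', Real.log_pow,
    NumberField.totalWeight_eq_finrank] at h1
  rw [logHeight_eq_log_mulHeight, logHeight_eq_log_mulHeight]
  linarith

/-- **coverings of projective space, at points with integral coordinates outside `2`** -/
theorem prox_cover (K : Type) [Field K] [NumberField K] {n N : ℕ} (hN : 1 ≤ N)
    (A : ℕ → MvPolynomial (Fin (n + 1)) K) (hA : ∀ i < N, (A i).IsHomogeneous (N - i)) :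
    ∃ (C : ℝ) (b : ℕ), b ≠ 0 ∧ ∀ (M : Type) [Field M] [NumberField M] [Algebra K M]
      (P : Fin (n + 1) → M), ∑ j, P j = 1 →
      (∀ w : HeightOneSpectrum (𝓞 M), ord w (2 : M) = 0 → ∀ j, 0 ≤ ord w (P j)) →
      ∃ (E : Type) (_ : Field E) (_ : NumberField E) (_ : Algebra M E) (_ : Algebra K E)
        (_ : IsScalarTower K M E) (z : E),
        z ^ N + ∑ i ∈ Finset.range N,
          MvPolynomial.aeval (fun j => algebraMap M E (P j)) (A i) * z ^ i = 0 ∧
        Module.finrank M E ≤ N ∧ M⟮z⟯ = ⊤ ∧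
        (∀ w : HeightOneSpectrum (𝓞 E), ord w (2 : E) = 0 → -ord w (b : E) ≤ ord w z) ∧
        (N * z ^ (N - 1) + ∑ i ∈ Finset.range N,
          i * (MvPolynomial.aeval (fun j => algebraMap M E (P j)) (A i) * z ^ (i - 1)) ≠ 0 →
        DD E ≤ Module.finrank M E * DD M +
          (N - 1) * logHeight (Fin.snoc (fun j => algebraMap M E (P j)) z : Fin (n + 2) → E) +
          Module.finrank ℚ E * C) := by
  classical
  obtain ⟨C1, hC1, H⟩ := cover_step (q := n + 2) hN
    (fun i => MvPolynomial.rename Fin.castSucc (A i))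
    (fun i hi => (hA i hi).rename_isHomogeneous (f := Fin.castSucc))
  obtain ⟨b, hb0, hb⟩ := exists_den K
    ((Finset.range N).biUnion fun i => (A i).support.image fun s => (A i).coeff s)
  refine ⟨Real.log 2 + (N - 1) * Real.log (n + 1) + C1, b, hb0, ?_⟩
  intro M _ _ _ P hs hint
  have h2M : (2 : M) ≠ 0 := two_ne_zero
  obtain ⟨V, hV⟩ : ∃ V, V = (fin_ord h2M).toFinset := ⟨_, rfl⟩
  have hVm : ∀ v, v ∉ V → ord v (2 : M) = 0 := by
    intro v hv
    rw [hV, Set.Finite.mem_toFinset, Set.mem_ofPred_eq, not_not] at hv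
    exact hv
  obtain ⟨E, i1, i2, i3, i4, i5, z, hz, hdeg, hadj, hDD⟩ := H M (Fin.snoc P 1 : Fin (n + 2) → M)
    (Fin.last (n + 1)) (Fin.snoc_last (α := fun _ => M) 1 P) V (by
      intro v hv i
      refine Fin.lastCases ?_ (fun j => ?_) i
      · rw [Fin.snoc_last (α := fun _ => M), ord_one]
      · rw [Fin.snoc_castSucc (α := fun _ => M)]
        exact hint v (hVm v hv) j)
  have hev : ∀ i, MvPolynomial.aeval (fun j => algebraMap M E
      ((Fin.snoc P 1 : Fin (n + 2) → M) j)) (MvPolynomial.rename Fin.castSucc (A i)) =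
      MvPolynomial.aeval (fun j => algebraMap M E (P j)) (A i) := by
    intro i
    rw [MvPolynomial.aeval_rename]
    congr 2
    funext j
    show algebraMap M E ((Fin.snoc P 1 : Fin (n + 2) → M) j.castSucc) = _
    rw [Fin.snoc_castSucc (α := fun _ => M)]
  have hsn : (fun j => algebraMap M E ((Fin.snoc P 1 : Fin (n + 2) → M) j)) =
      (Fin.snoc (fun j => algebraMap M E (P j)) 1 : Fin (n + 2) → E) := by
    funext j
    refine Fin.lastCases ?_ (fun j => ?_) j
    · rw [Fin.snoc_last (α := fun _ => M), Fin.snoc_last (α := fun _ => E), map_one]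
    · rw [Fin.snoc_castSucc (α := fun _ => M), Fin.snoc_castSucc (α := fun _ => E)]
  simp_rw [hev] at hz
  refine ⟨E, i1, i2, i3, i4, i5, z, hz, hdeg, hadj, ?_, ?_⟩
  · intro w hw
    refine root_ord w _ z hz (ord w (b : E)) (nat_nonneg w b) fun i hi => ?_
    -- the values of the coefficients
    have hbE : (b : E) ≠ 0 := Nat.cast_ne_zero.2 hb0
    have hPw : ∀ j, 0 ≤ ord w (algebraMap M E (P j)) := by
      intro j
      have hl : w.asIdeal.LiesOver (w.under (𝓞 M)).asIdeal := ⟨rfl⟩
      have h1 : ∀ x, ord w (algebraMap M E x) = _ := ord_above (w.under (𝓞 M)) w hl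
      have he := ram_ne (w.under (𝓞 M)) w hl
      have h2 := h1 2
      rw [map_ofNat, hw] at h2
      have h3 : ord (w.under (𝓞 M)) (2 : M) = 0 := by
        rcases mul_eq_zero.1 h2.symm with h | h
        · exact absurd (by exact_mod_cast h) he
        · exact h
      rw [h1]
      exact mul_nonneg (Int.natCast_nonneg _) (hint _ h3 j)
    have key : 0 ≤ ord w ((b : E) *
        MvPolynomial.aeval (fun j => algebraMap M E (P j)) (A i)) := by
      rw [ord_nonneg_iff]
      have h1 : (b : E) * MvPolynomial.aeval (fun j => algebraMap M E (P j)) (A i) ∈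
          (w.valuation E).integer := by
        rw [MvPolynomial.aeval_def, MvPolynomial.eval₂_eq', Finset.mul_sum]
        refine sum_mem fun s hs => ?_
        rw [← mul_assoc]
        refine mul_mem ?_ (prod_mem fun j _ => pow_mem ?_ _)
        · refine (ord_nonneg_iff w _).1 ?_
          by_cases h0 : (A i).coeff s = 0
          · rw [h0, map_zero, mul_zero, ord_zero]
          rw [ord_mul w hbE ((_root_.map_ne_zero _).2 h0)]
          have h2 := hb E w _ (Finset.mem_biUnion.2 ⟨i, Finset.mem_range.2 hi,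
            Finset.mem_image.2 ⟨s, hs, rfl⟩⟩)
          omega
        · exact (ord_nonneg_iff w _).1 (hPw j)
      exact h1
    by_cases h0 : MvPolynomial.aeval (fun j => algebraMap M E (P j)) (A i) = 0
    · rw [h0, ord_zero]
      have := nat_nonneg w b (K := E)
      omega
    · rw [ord_mul w hbE h0] at key
      omega
  · intro hD
    have h1 := hDD (by
      rw [dform_eval]
      simp_rw [hev]
      exact hD) ∅ (by simp)
    rw [Finset.sum_empty, add_zero] at h1
    have h2 := Pool.Agent.H431.EC.sum_bad (M := M) (N := 2) two_ne_zero V (fun v hv => by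
      rw [hV, Set.Finite.mem_toFinset] at hv
      exact_mod_cast hv)
    have h3 := ht_snoc (fun j => algebraMap M E (P j)) (by rw [← map_sum, hs, map_one]) z
    rw [hsn] at h1
    have h4 : (Module.finrank ℚ E : ℝ) = Module.finrank ℚ M * Module.finrank M E := by
      exact_mod_cast (Module.finrank_mul_finrank ℚ M E).symm
    have h5 := mul_le_mul_of_nonneg_left h2 (Nat.cast_nonneg (α := ℝ) (Module.finrank M E))
    have hN1 : ((N - 1 : ℕ) : ℝ) = N - 1 := by
      rw [Nat.cast_sub hN, Nat.cast_one]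
    have hN0 : (0 : ℝ) ≤ (N : ℝ) - 1 := by
      rw [← hN1]
      exact Nat.cast_nonneg _
    have h6 := mul_le_mul_of_nonneg_left h3 hN0
    rw [hN1] at h1
    have e5 : (Module.finrank M E : ℝ) * (Module.finrank ℚ M * Real.log ((2 : ℕ) : ℝ)) =
        Module.finrank ℚ E * Real.log 2 := by
      rw [h4]
      push_cast
      ring
    rw [e5] at h5
    have e6 : (Module.finrank M E : ℝ) * (DD M + ∑ v ∈ V, ell v) =
        Module.finrank M E * DD M + Module.finrank M E * ∑ v ∈ V, ell v := by ring
    rw [e6] at h1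
    have e7 : ((N : ℝ) - 1) * (logHeight (Fin.snoc (fun j => algebraMap M E (P j)) z :
        Fin (n + 2) → E) + Module.finrank ℚ E * Real.log (n + 1)) = ((N : ℝ) - 1) * logHeight
        (Fin.snoc (fun j => algebraMap M E (P j)) z : Fin (n + 2) → E) +
        Module.finrank ℚ E * ((N - 1) * Real.log (n + 1)) := by ring
    rw [e7] at h6
    have e8 : (Module.finrank ℚ E : ℝ) * (Real.log 2 + (N - 1) * Real.log (n + 1) + C1) =
        Module.finrank ℚ E * Real.log 2 + Module.finrank ℚ E * ((N - 1) * Real.log (n + 1)) +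
        Module.finrank ℚ E * C1 := by ring
    rw [e8]
    linarith

end Pool.Agent.H431.CV
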