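import Pool.Agent.H431.CV.Form
import Pool.Agent.H431.CV.Disc
import Pool.Agent.H431.OC.Compositum

/-!
# Finite coverings by one equation
-/

set_option autoImplicit false

namespace Pool.Agent.H431.CV

open NumberField IsDedekindDomain Height Pool.Agent.Q290.NF IntermediateField
open Pool.Agent.H431.OC Pool.Agent.H431.MT Polynomial

/-- adjoining a root -/
theorem exists_root (M : Type) [Field M] [NumberField M] (p : M[X]) (hp : p.Monic)
    (h1 : 1 ≤ p.natDegree) :
    ∃ (E : Type) (_ : Field E) (_ : NumberField E) (_ : Algebra M E) (z : E),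
      aeval z p = 0 ∧ Module.finrank M E ≤ p.natDegree ∧ M⟮z⟯ = ⊤ := by
  obtain ⟨x, hx⟩ := IsAlgClosed.exists_aeval_eq_zero (AlgebraicClosure M) p (by
    intro h
    rw [natDegree_eq_zero_iff_degree_le_zero.2 h.le] at h1
    omega)
  have ix : IsIntegral M x := ⟨p, hp, hx⟩
  let F := M⟮x⟯
  have hF : Module.Finite M F := adjoin.finiteDimensional ix
  have nF : NumberField F := NumberField.of_module_finite M F
  refine ⟨F, inferInstance, nF, inferInstance, AdjoinSimple.gen M x, ?_, ?_, gen_top ix⟩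
  · apply (algebraMap F (AlgebraicClosure M)).injective
    rw [map_zero, ← aeval_algebraMap_apply, AdjoinSimple.algebraMap_gen, hx]
  · rw [adjoin.finrank ix]
    exact natDegree_le_of_dvd (minpoly.dvd M x hx) hp.ne_zero

/-- an integer with prescribed prime divisors -/
theorem exists_c0 (M : Type) [Field M] [NumberField M] (V : Finset (HeightOneSpectrum (𝓞 M))) :
    ∃ c : 𝓞 M, c ≠ 0 ∧ ∀ v : HeightOneSpectrum (𝓞 M), (v ∈ V → 1 ≤ ord v (c : M)) ∧
      (v ∉ V → ord v (c : M) = 0) := by
  classical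
  obtain ⟨I, hI⟩ : ∃ I : Ideal (𝓞 M), I = ∏ v ∈ V, v.asIdeal := ⟨_, rfl⟩
  have hI0 : I ≠ 0 := by
    rw [hI]
    exact Finset.prod_ne_zero_iff.2 fun v _ => v.ne_bot
  have hI0' : I ∈ nonZeroDivisors (Ideal (𝓞 M)) := mem_nonZeroDivisors_of_ne_zero hI0
  obtain ⟨h, hh⟩ : ∃ h, h = Fintype.card (ClassGroup (𝓞 M)) := ⟨_, rfl⟩
  have hpos : 0 < h := by
    rw [hh]
    exact Fintype.card_pos
  have h1 : ClassGroup.mk0 (⟨I ^ h, pow_mem hI0' h⟩ : nonZeroDivisors (Ideal (𝓞 M))) = 1 := by
    have h2 : ClassGroup.mk0 (⟨I, hI0'⟩ : nonZeroDivisors (Ideal (𝓞 M))) ^ h = 1 := by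
      rw [hh]
      exact pow_card_eq_one
    rw [← map_pow] at h2
    exact h2
  rw [ClassGroup.mk0_eq_one_iff] at h1
  obtain ⟨c, hc⟩ := h1.principal
  rw [Ideal.submodule_span_eq] at hc
  have hc0 : c ≠ 0 := by
    rintro rfl
    rw [Ideal.span_singleton_zero] at hc
    exact pow_ne_zero h hI0 hc
  have hcM : (c : M) ≠ 0 := by exact_mod_cast hc0
  have hmem : ∀ v : HeightOneSpectrum (𝓞 M), c ∈ v.asIdeal ↔ v ∈ V := by
    intro v
    rw [← Ideal.dvd_span_singleton, ← hc]
    constructor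
    · intro hd
      have h3 := v.prime.dvd_of_dvd_pow hd
      rw [hI] at h3
      obtain ⟨w, hw, hvw⟩ := v.prime.exists_mem_finset_dvd h3
      have h4 : w.asIdeal = v.asIdeal := by
        rw [Ideal.dvd_iff_le] at hvw
        exact (w.isMaximal.eq_of_le v.isPrime.ne_top hvw)
      rwa [← HeightOneSpectrum.ext h4]
    · intro hv
      rw [hI]
      exact (Finset.dvd_prod_of_mem (fun v : HeightOneSpectrum (𝓞 M) => v.asIdeal) hv).trans
        (dvd_pow_self _ hpos.ne')
  have hval : ∀ v : HeightOneSpectrum (𝓞 M), v.valuation M (c : M) < 1 ↔ v ∈ V := by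
    intro v
    rw [← hmem v]
    exact v.valuation_lt_one_iff_mem c
  refine ⟨c, hc0, fun v => ⟨fun hv => ?_, fun hv => ?_⟩⟩
  · have := (ord_pos_iff v hcM).2 ((hval v).2 hv)
    omega
  · rw [ord_eq_zero_iff v hcM]
    exact le_antisymm (v.valuation_le_one c) (not_lt.1 fun h => hv ((hval v).1 h))

/-- values of polynomials with integral coefficients at integral points -/
theorem int_aeval {K M : Type} [Field K] [Field M] [NumberField M] [Algebra K M] {q : ℕ}
    (A : MvPolynomial (Fin q) K) (y : Fin q → M) (v : HeightOneSpectrum (𝓞 M))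
    (hA : ∀ s ∈ A.support, 0 ≤ ord v (algebraMap K M (A.coeff s)))
    (hy : ∀ i, 0 ≤ ord v (y i)) : 0 ≤ ord v (MvPolynomial.aeval y A) := by
  have key : MvPolynomial.aeval y A ∈ (v.valuation M).integer := by
    rw [MvPolynomial.aeval_def, MvPolynomial.eval₂_eq']
    refine sum_mem fun s hs => mul_mem ?_ (prod_mem fun i _ => pow_mem ?_ _)
    · exact (ord_nonneg_iff v _).1 (hA s hs)
    · exact (ord_nonneg_iff v _).1 (hy i)
  exact (ord_nonneg_iff v _).2 key

variable {K : Type} [Field K] [NumberField K]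

/-- the derivative of the equation, a form of degree `N - 1` -/
noncomputable def dform {q : ℕ} (N : ℕ) (A : ℕ → MvPolynomial (Fin q) K) :
    MvPolynomial (Fin (q + 1)) K :=
  MvPolynomial.C (N : K) * MvPolynomial.X (Fin.last q) ^ (N - 1) +
    ∑ i ∈ Finset.range N, MvPolynomial.C (i : K) *
      (MvPolynomial.rename Fin.castSucc (A i) * MvPolynomial.X (Fin.last q) ^ (i - 1))

theorem dform_hom {q : ℕ} {N : ℕ} {A : ℕ → MvPolynomial (Fin q) K}
    (hA : ∀ i < N, (A i).IsHomogeneous (N - i)) : (dform N A).IsHomogeneous (N - 1) := by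
  unfold dform
  refine MvPolynomial.IsHomogeneous.add ?_ (MvPolynomial.IsHomogeneous.sum _ _ _ fun i hi => ?_)
  · have h1 := (MvPolynomial.isHomogeneous_C (Fin (q + 1)) (N : K)).mul
      (MvPolynomial.isHomogeneous_X_pow (R := K) (Fin.last q) (N - 1))
    rwa [zero_add] at h1
  · rw [Finset.mem_range] at hi
    rcases Nat.eq_zero_or_pos i with rfl | h0
    · rw [Nat.cast_zero, map_zero, zero_mul]
      exact MvPolynomial.isHomogeneous_zero _ _ _
    · have h1 := (MvPolynomial.isHomogeneous_C (Fin (q + 1)) (i : K)).mul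
        (((hA i hi).rename_isHomogeneous (f := Fin.castSucc)).mul
          (MvPolynomial.isHomogeneous_X_pow (R := K) (Fin.last q) (i - 1)))
      have e : 0 + (N - i + (i - 1)) = N - 1 := by omega
      rwa [e] at h1

theorem dform_eval {q : ℕ} {N : ℕ} {A : ℕ → MvPolynomial (Fin q) K} {E : Type} [Field E]
    [Algebra K E] (y : Fin q → E) (z : E) :
    MvPolynomial.aeval (Fin.snoc y z : Fin (q + 1) → E) (dform N A) =
      N * z ^ (N - 1) + ∑ i ∈ Finset.range N, i * (MvPolynomial.aeval y (A i) * z ^ (i - 1)) := by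
  unfold dform
  rw [map_add, map_mul, MvPolynomial.aeval_C, map_pow, MvPolynomial.aeval_X, Fin.snoc_last,
    map_natCast, map_sum]
  congr 1
  refine Finset.sum_congr rfl fun i _ => ?_
  rw [map_mul, map_mul, MvPolynomial.aeval_C, map_pow, MvPolynomial.aeval_X, Fin.snoc_last,
    map_natCast, MvPolynomial.aeval_rename]
  have e1 : (Fin.snoc y z : Fin (q + 1) → E) ∘ Fin.castSucc = y := funext fun j =>
    Fin.snoc_castSucc (α := fun _ => E) z y j
  rw [e1]

end Pool.Agent.H431.CV
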