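import Pool.Agent.H431.CV.Step

/-!
# The discriminants of finite coverings by one equation
-/

set_option autoImplicit false

namespace Pool.Agent.H431.CV

open NumberField IsDedekindDomain Height Pool.Agent.Q290.NF IntermediateField
open Pool.Agent.H431.OC Pool.Agent.H431.MT Polynomial

variable {K : Type} [Field K] [NumberField K]

/-- the equation with the coefficients `a` -/
noncomputable def pol {R : Type} [CommRing R] (N : ℕ) (a : ℕ → R) : R[X] :=
  X ^ N + ∑ i ∈ Finset.range N, C (a i) * X ^ i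

theorem pol_deg {R : Type} [CommRing R] (N : ℕ) (a : ℕ → R) :
    degree (∑ i ∈ Finset.range N, C (a i) * X ^ i) < (N : WithBot ℕ) := by
  refine (degree_sum_le _ _).trans_lt ((Finset.sup_lt_iff (WithBot.bot_lt_coe N)).2 ?_)
  intro i hi
  rw [Finset.mem_range] at hi
  exact (degree_C_mul_X_pow_le i (a i)).trans_lt (WithBot.coe_lt_coe.2 hi)

theorem pol_monic {R : Type} [CommRing R] (N : ℕ) (a : ℕ → R) : (pol N a).Monic :=
  monic_X_pow_add (pol_deg N a)

theorem pol_natDegree {R : Type} [CommRing R] [Nontrivial R] (N : ℕ) (a : ℕ → R) :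
    (pol N a).natDegree = N := by
  unfold pol
  rw [natDegree_add_eq_left_of_degree_lt, natDegree_X_pow]
  rw [degree_X_pow]
  exact pol_deg N a

theorem pol_aeval {R S : Type} [CommRing R] [CommRing S] [Algebra R S] (N : ℕ) (a : ℕ → R)
    (z : S) : aeval z (pol N a) = z ^ N + ∑ i ∈ Finset.range N, algebraMap R S (a i) * z ^ i := by
  unfold pol
  simp [map_add, map_sum]

theorem pol_deriv {R S : Type} [CommRing R] [CommRing S] [Algebra R S] (N : ℕ) (a : ℕ → R)
    (z : S) : aeval z (derivative (pol N a)) = N * z ^ (N - 1) +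
      ∑ i ∈ Finset.range N, i * (algebraMap R S (a i) * z ^ (i - 1)) := by
  unfold pol
  rw [derivative_add, derivative_X_pow, derivative_sum, map_add, map_mul, aeval_C, map_pow,
    aeval_X, map_natCast, map_sum]
  congr 1
  refine Finset.sum_congr rfl fun i _ => ?_
  rw [derivative_C_mul_X_pow, map_mul, aeval_C, map_pow, aeval_X, map_mul, map_natCast]
  ring

/-- **the covering step** -/
theorem cover_step {q N : ℕ} (hN : 1 ≤ N) (A : ℕ → MvPolynomial (Fin q) K)
    (hA : ∀ i < N, (A i).IsHomogeneous (N - i)) :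
    ∃ C : ℝ, 0 ≤ C ∧ ∀ (M : Type) [Field M] [NumberField M] [Algebra K M] (y : Fin q → M)
      (k0 : Fin q), y k0 = 1 → ∀ V : Finset (HeightOneSpectrum (𝓞 M)),
      (∀ v, v ∉ V → ∀ i, 0 ≤ ord v (y i)) →
      ∃ (E : Type) (_ : Field E) (_ : NumberField E) (_ : Algebra M E) (_ : Algebra K E)
        (_ : IsScalarTower K M E) (z : E),
        z ^ N + ∑ i ∈ Finset.range N,
          MvPolynomial.aeval (fun j => algebraMap M E (y j)) (A i) * z ^ i = 0 ∧
        Module.finrank M E ≤ N ∧ M⟮z⟯ = ⊤ ∧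
        (MvPolynomial.aeval (Fin.snoc (fun j => algebraMap M E (y j)) z : Fin (q + 1) → E)
          (dform N A) ≠ 0 → ∀ W : Finset (HeightOneSpectrum (𝓞 E)),
        (∀ w ∈ W, ∃ v ∈ V, w.asIdeal.comap (algebraMap (𝓞 M) (𝓞 E)) = v.asIdeal) →
        DD E + ∑ w ∈ W, ell w ≤ Module.finrank M E * (DD M + ∑ v ∈ V, ell v) +
          (N - 1 : ℕ) * logHeight (Fin.snoc (fun j => algebraMap M E (y j)) z : Fin (q + 1) → E) +
          Module.finrank ℚ E * C) := by
  classical
  obtain ⟨C1, hC1, HF⟩ := form_ht K (dform N A) (dform_hom hA)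
  obtain ⟨N1, hN1, HN⟩ := exists_bad (k := K)
    ((Finset.range N).biUnion fun i => (A i).support.image fun s => (A i).coeff s)
  have hl1 : 0 ≤ Real.log N1 := Real.log_natCast_nonneg _
  have hl2 : 0 ≤ Real.log ((N.factorial : ℕ) : ℝ) := Real.log_natCast_nonneg _
  refine ⟨C1 + Real.log N1 + Real.log ((N.factorial : ℕ) : ℝ), by positivity, ?_⟩
  intro M _ _ _ y k0 hk0 V hV
  obtain ⟨a, ha⟩ : ∃ a : ℕ → M, a = fun i => MvPolynomial.aeval y (A i) := ⟨_, rfl⟩
  obtain ⟨E, i1, i2, i3, z, hz, hdeg, hadj⟩ := exists_root M (pol N a) (pol_monic N a) (by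
    rw [pol_natDegree]; exact hN)
  rw [pol_natDegree] at hdeg
  rw [pol_aeval] at hz
  let _ : Algebra K E := ((algebraMap M E).comp (algebraMap K M)).toAlgebra
  have hst : IsScalarTower K M E := IsScalarTower.of_algebraMap_eq fun _ => rfl
  have haE : ∀ i, MvPolynomial.aeval (fun j => algebraMap M E (y j)) (A i) =
      algebraMap M E (a i) := by
    intro i
    rw [ha]
    exact MvPolynomial.aeval_algebraMap_apply E y (A i)
  refine ⟨E, i1, i2, i3, inferInstance, hst, z, ?_, hdeg, hadj, ?_⟩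
  · simp_rw [haE]
    exact hz
  intro hD W hW
  -- the bad primes
  have hN1M : (N1 : M) ≠ 0 := Nat.cast_ne_zero.2 hN1
  obtain ⟨VN, hVN⟩ : ∃ VN, VN = (fin_ord hN1M).toFinset := ⟨_, rfl⟩
  obtain ⟨V', hV'⟩ : ∃ V', V' = V ∪ VN := ⟨_, rfl⟩
  have hint : ∀ v, v ∉ V' → ∀ i < N, 0 ≤ ord v (a i) := by
    intro v hv i hi
    rw [hV', Finset.mem_union, not_or, hVN, Set.Finite.mem_toFinset, Set.mem_ofPred_eq,
      not_not] at hv
    rw [ha]
    refine int_aeval (A i) y v (fun s hs => ?_) (hV v hv.1)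
    rw [HN M v hv.2 _ (Finset.mem_biUnion.2 ⟨i, Finset.mem_range.2 hi,
      Finset.mem_image.2 ⟨s, hs, rfl⟩⟩)]
  obtain ⟨c, hc0, hc⟩ := exists_c0 M V'
  have hcM : (c : M) ≠ 0 := by exact_mod_cast hc0
  obtain ⟨j, hj⟩ : ∃ j : ℕ, j = ∑ v ∈ V', ∑ i ∈ Finset.range N, (ord v (a i)).natAbs := ⟨_, rfl⟩
  have hbint : ∀ i < N, ∀ v : HeightOneSpectrum (𝓞 M),
      0 ≤ ord v ((c : M) ^ (j * (N - i)) * a i) := by
    intro i hi v
    by_cases ha0 : a i = 0
    · rw [ha0, mul_zero, ord_zero]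
    rw [ord_mul v (pow_ne_zero _ hcM) ha0, ord_pow]
    by_cases hv : v ∈ V'
    · have h1 := (hc v).1 hv
      have h2 : (ord v (a i)).natAbs ≤ j := by
        rw [hj]
        refine le_trans ?_ (Finset.single_le_sum
          (f := fun v => ∑ i ∈ Finset.range N, (ord v (a i)).natAbs) (fun _ _ => Nat.zero_le _) hv)
        exact Finset.single_le_sum (f := fun i => (ord v (a i)).natAbs)
          (fun _ _ => Nat.zero_le _) (Finset.mem_range.2 hi)
      have h3 : j ≤ j * (N - i) := Nat.le_mul_of_pos_right _ (by omega)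
      have h4 : (j : ℤ) ≤ ((j * (N - i) : ℕ) : ℤ) := by exact_mod_cast h3
      have h5 : ((j * (N - i) : ℕ) : ℤ) ≤ ((j * (N - i) : ℕ) : ℤ) * ord v (c : M) := by
        have : (0 : ℤ) ≤ ((j * (N - i) : ℕ) : ℤ) := Int.natCast_nonneg _
        nlinarith
      omega
    · rw [(hc v).2 hv, mul_zero, zero_add]
      exact hint v hv i hi
  have hb : ∀ i, ∃ b : 𝓞 M, i < N → (b : M) = (c : M) ^ (j * (N - i)) * a i := by
    intro i
    by_cases hi : i < N
    · obtain ⟨b, hb⟩ := HeightOneSpectrum.mem_integers_of_valuation_le_one (R := 𝓞 M) M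
        ((c : M) ^ (j * (N - i)) * a i) (fun v => (ord_nonneg_iff v _).1 (hbint i hi v))
      exact ⟨b, fun _ => hb⟩
    · exact ⟨0, fun h => absurd h hi⟩
  choose b hb using hb
  -- the integral generator
  obtain ⟨cE, hcE⟩ : ∃ cE : E, cE = algebraMap M E (c : M) := ⟨_, rfl⟩
  have hcE0 : cE ≠ 0 := by
    rw [hcE]
    exact (_root_.map_ne_zero _).2 hcM
  have hbE : ∀ i < N, algebraMap (𝓞 M) E (b i) = cE ^ (j * (N - i)) * algebraMap M E (a i) := by
    intro i hi
    rw [IsScalarTower.algebraMap_apply (𝓞 M) M E]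
    have h1 : algebraMap (𝓞 M) M (b i) = (c : M) ^ (j * (N - i)) * a i := hb i hi
    rw [h1, map_mul, map_pow, hcE]
  obtain ⟨β, hβ⟩ : ∃ β : E, β = cE ^ j * z := ⟨_, rfl⟩
  have hroot : aeval β (pol N b) = 0 := by
    rw [pol_aeval]
    have e1 : β ^ N = cE ^ (j * N) * z ^ N := by
      rw [hβ, mul_pow, ← pow_mul]
    have e2 : ∀ i ∈ Finset.range N, algebraMap (𝓞 M) E (b i) * β ^ i =
        cE ^ (j * N) * (algebraMap M E (a i) * z ^ i) := by
      intro i hi
      rw [Finset.mem_range] at hi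
      rw [hbE i hi, hβ, mul_pow, ← pow_mul]
      have e3 : cE ^ (j * N) = cE ^ (j * (N - i)) * cE ^ (j * i) := by
        rw [← pow_add, ← mul_add]
        congr 2
        omega
      rw [e3]
      ring
    rw [e1, Finset.sum_congr rfl e2, ← Finset.mul_sum, ← mul_add, hz, mul_zero]
  have hβi : IsIntegral (𝓞 M) β := ⟨pol N b, pol_monic N b, hroot⟩
  have hβZ : IsIntegral ℤ β := isIntegral_trans (A := 𝓞 M) β hβi
  obtain ⟨β', hβ'⟩ : ∃ β' : 𝓞 E, (β' : E) = β := ⟨⟨β, hβZ⟩, rfl⟩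
  have hroot' : aeval β' (pol N b) = 0 := by
    apply FaithfulSMul.algebraMap_injective (𝓞 E) E
    rw [map_zero, ← aeval_algebraMap_apply]
    have : algebraMap (𝓞 E) E β' = β := hβ'
    rw [this, hroot]
  have hβgen : M⟮(β' : E)⟯ = ⊤ := by
    rw [hβ', ← hadj]
    have hcj : algebraMap M E ((c : M) ^ j) = cE ^ j := by rw [map_pow, hcE]
    have hcj0 : cE ^ j ≠ 0 := pow_ne_zero _ hcE0
    apply le_antisymm
    · rw [adjoin_simple_le_iff, hβ, ← hcj]
      exact mul_mem (_root_.algebraMap_mem _ _) (mem_adjoin_simple_self M z)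
    · rw [adjoin_simple_le_iff]
      have h1 : z = (algebraMap M E ((c : M) ^ j))⁻¹ * β := by
        rw [hβ, hcj, inv_mul_cancel_left₀ hcj0]
      have h3 : (algebraMap M E ((c : M) ^ j))⁻¹ * β ∈ M⟮β⟯ :=
        mul_mem (inv_mem (_root_.algebraMap_mem _ _)) (mem_adjoin_simple_self M _)
      rwa [← h1] at h3
  have hmem := Pool.Agent.Y733.VR.deriv_mem M E β' hβgen (pol N b) hroot'
  obtain ⟨δ, hδ⟩ : ∃ δ : 𝓞 E, δ = aeval β' (derivative (pol N b)) := ⟨_, rfl⟩
  rw [← hδ] at hmem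
  obtain ⟨Dz, hDz⟩ : ∃ Dz : E, Dz = MvPolynomial.aeval
    (Fin.snoc (fun j => algebraMap M E (y j)) z : Fin (q + 1) → E) (dform N A) := ⟨_, rfl⟩
  rw [← hDz] at hD
  have hDz' : Dz = N * z ^ (N - 1) +
      ∑ i ∈ Finset.range N, i * (algebraMap M E (a i) * z ^ (i - 1)) := by
    rw [hDz, dform_eval]
    simp_rw [haE]
  have hδE : (δ : E) = cE ^ (j * (N - 1)) * Dz := by
    have e0 : (δ : E) = aeval β (derivative (pol N b)) := by
      rw [hδ]
      have : algebraMap (𝓞 E) E β' = β := hβ'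
      rw [← this, aeval_algebraMap_apply]
    rw [e0, pol_deriv, hDz', mul_add, Finset.mul_sum]
    congr 1
    · rw [hβ, mul_pow, ← pow_mul]
      ring
    · refine Finset.sum_congr rfl fun i hi => ?_
      rw [Finset.mem_range] at hi
      rcases Nat.eq_zero_or_pos i with rfl | h0
      · simp
      · rw [hbE i hi, hβ, mul_pow, ← pow_mul]
        have e3 : cE ^ (j * (N - 1)) = cE ^ (j * (N - i)) * cE ^ (j * (i - 1)) := by
          rw [← pow_add, ← mul_add]
          congr 2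
          omega
        rw [e3]
        ring
  have hδ0 : δ ≠ 0 := by
    intro h
    have h1 : (δ : E) ≠ 0 := by
      rw [hδE]
      exact mul_ne_zero (pow_ne_zero _ hcE0) hD
    exact h1 (by rw [h]; rfl)
  obtain ⟨W0, hW0⟩ : ∃ W0, W0 = (fin_ord hD).toFinset.filter (fun w =>
    ¬ ∃ v ∈ V', w.asIdeal.comap (algebraMap (𝓞 M) (𝓞 E)) = v.asIdeal) := ⟨_, rfl⟩
  -- the orders at the good primes
  have hgood : ∀ w : HeightOneSpectrum (𝓞 E),
      (¬ ∃ v ∈ V', w.asIdeal.comap (algebraMap (𝓞 M) (𝓞 E)) = v.asIdeal) →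
      ord w (δ : E) = ord w Dz := by
    intro w hw
    rw [hδE, ord_mul w (pow_ne_zero _ hcE0) hD, ord_pow]
    have hl : w.asIdeal.LiesOver (w.under (𝓞 M)).asIdeal := ⟨rfl⟩
    have h1 : ord w cE = 0 := by
      rw [hcE, ord_above _ w hl, (hc (w.under (𝓞 M))).2 (fun h => hw ⟨_, h, rfl⟩), mul_zero]
    rw [h1, mul_zero, zero_add]
  have hdisc := disc_cover (k := M) (F := E) V' δ hδ0 hmem W0 (fun P hP => by
    by_cases hPV : ∃ v ∈ V', P.asIdeal.comap (algebraMap (𝓞 M) (𝓞 E)) = v.asIdeal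
    · exact Or.inl hPV
    · right
      rw [hW0, Finset.mem_filter, Set.Finite.mem_toFinset]
      refine ⟨?_, hPV⟩
      show ord P Dz ≠ 0
      rw [← hgood P hPV]
      have h1 : P.valuation E (δ : E) < 1 := (P.valuation_lt_one_iff_mem δ).2 hP
      have h2 := (ord_pos_iff P (x := (δ : E)) (by exact_mod_cast hδ0)).2 h1
      exact h2.ne') W (fun w hw => by
      obtain ⟨v, hv, h⟩ := hW w hw
      exact ⟨v, by rw [hV']; exact Finset.mem_union_left _ hv, h⟩)
  have hs1 : ∑ w ∈ W0, (multiplicity w.asIdeal (Ideal.span {δ}) : ℝ) *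
        Real.log (Ideal.absNorm w.asIdeal : ℝ) ≤ logHeight₁ Dz := by
    have h1 : ∑ w ∈ W0, (multiplicity w.asIdeal (Ideal.span {δ}) : ℝ) *
        Real.log (Ideal.absNorm w.asIdeal : ℝ) ≤ ∑ w ∈ W0, max 0 (ord w Dz : ℝ) * ell w := by
      refine Finset.sum_le_sum fun w hw => ?_
      rw [hW0, Finset.mem_filter] at hw
      have h2 := mult_le w hδ0
      rw [hgood w hw.2] at h2
      have h3 : (multiplicity w.asIdeal (Ideal.span {δ}) : ℝ) ≤ ord w Dz := by exact_mod_cast h2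
      exact mul_le_mul_of_nonneg_right (h3.trans (le_max_right _ _)) (ell_pos w).le
    refine h1.trans (le_trans ?_ (zeros_le Dz))
    unfold sm
    rw [finsum_eq_sum_of_support_subset (s := (supp_mul (supp_zeros Dz)).toFinset ∪ W0)]
    · refine Finset.sum_le_sum_of_subset_of_nonneg Finset.subset_union_right fun v _ _ => ?_
      exact mul_nonneg (le_max_left _ _) (ell_pos v).le
    · rw [Finset.coe_union, Set.Finite.coe_toFinset]
      exact Set.subset_union_left
  have hs2 := HF E (Fin.snoc (fun j => algebraMap M E (y j)) z : Fin (q + 1) → E)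
    k0.castSucc (by rw [Fin.snoc_castSucc, hk0, map_one]) (by rw [← hDz]; exact hD)
  rw [← hDz] at hs2
  have hs3 : ∑ v ∈ V', ell v ≤ ∑ v ∈ V, ell v + Module.finrank ℚ M * Real.log N1 := by
    have h1 : ∑ v ∈ V', ell v ≤ ∑ v ∈ V, ell v + ∑ v ∈ VN, ell v := by
      have h2 := Finset.sum_union_inter (s₁ := V) (s₂ := VN) (f := fun w => ell w)
      have h3 : 0 ≤ ∑ w ∈ V ∩ VN, ell w := Finset.sum_nonneg fun w _ => (ell_pos w).le
      rw [hV']
      linarith
    have h2 := Pool.Agent.H431.EC.sum_bad hN1 VN (fun v hv => by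
      rw [hVN, Set.Finite.mem_toFinset] at hv
      exact hv)
    linarith
  have hfac : Real.log (((Module.finrank M E).factorial : ℕ) : ℝ) ≤
      Real.log ((N.factorial : ℕ) : ℝ) := by
    refine Real.log_le_log (by exact_mod_cast Nat.factorial_pos _) ?_
    exact_mod_cast Nat.factorial_le hdeg
  obtain ⟨p, hp⟩ : ∃ p : ℝ, p = (Module.finrank M E : ℝ) := ⟨_, rfl⟩
  have hp0 : 0 ≤ p := by
    rw [hp]
    exact Nat.cast_nonneg _
  have hQE : (Module.finrank ℚ E : ℝ) = Module.finrank ℚ M * p := by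
    rw [hp]
    exact_mod_cast (Module.finrank_mul_finrank ℚ M E).symm
  have hM0 : (0 : ℝ) ≤ Module.finrank ℚ M := Nat.cast_nonneg _
  have hs4 := mul_le_mul_of_nonneg_left hs3 hp0
  have hs5 := mul_le_mul_of_nonneg_left (mul_le_mul_of_nonneg_left hfac hM0) hp0
  have d1 : DD E = Real.log |(discr E : ℝ)| := rfl
  have d2 : DD M = Real.log |(discr M : ℝ)| := rfl
  have d3 : ∀ w : HeightOneSpectrum (𝓞 E), ell w = Real.log (Ideal.absNorm w.asIdeal : ℝ) :=
    fun w => rfl
  have d4 : ∀ w : HeightOneSpectrum (𝓞 M), ell w = Real.log (Ideal.absNorm w.asIdeal : ℝ) :=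
    fun w => rfl
  simp_rw [d4] at hs4
  simp_rw [d1, d2, d3, d4]
  rw [← hp] at hdisc ⊢
  rw [hQE] at hs2 ⊢
  have hdisc' := hdisc
  linarith

end Pool.Agent.H431.CV
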